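import Pool.Agent.TH969.RM2.SimRC

/-!
The state of the cell `0` at the time `t` of an automaton with a belt as an `LS` function
(an edit of `TH381.RM.SimS`).
-/

set_option autoImplicit false
set_option linter.unusedSimpArgs false
set_option linter.unusedVariables false

namespace Pool.Agent.TH969.RM2

open Pool.Agent.H539R2

/-- the parameters -/
def prm (q dc tab a2 b M X B l y c H : ℕ) : Prm where
  X := X
  q := q
  dc := dc
  tab := tab
  a2 := a2
  b := b
  M := M
  y := y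
  B := B
  H := H
  p := ZZ.fnd B / (6 * B + 3)
  g := ZZ.fnd B % (6 * B + 3)
  c := c
  l := l

theorem LS.prm (q dc tab a2 b M : ℕ) {X B l y c H : (ℕ → ℕ) → ℕ} (hX : LS X) (hB : LS B)
    (hl : LS l) (hy : LS y) (hc : LS c) (hH : LS H) :
    LSPrm (fun ρ => prm q dc tab a2 b M (X ρ) (B ρ) (l ρ) (y ρ) (c ρ) (H ρ)) := by
  have hf := ZZ.LS.fnd hB
  have hw : LS (fun ρ => 6 * B ρ + 3) := ((LS.const 6).mul hB).add (LS.const 3)
  refine ⟨?_, ?_, ?_, ?_, ?_, ?_, ?_, ?_, ?_, ?_, ?_, ?_, ?_, ?_⟩ <;> simp only [RM2.prm]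
  · exact hX
  · exact LS.const q
  · exact LS.const dc
  · exact LS.const tab
  · exact LS.const a2
  · exact LS.const b
  · exact LS.const M
  · exact hy
  · exact hB
  · exact hH
  · exact hf.div hw
  · exact hf.mod hw
  · exact hc
  · exact hl

/-- the window number -/
def win (q dc tab a2 b M X B l y H : ℕ) : ℕ :=
  ∑ c ∈ Finset.range (3 * B), (prm q dc tab a2 b M X B l y c H).sim * powT X q c

/-- the state of the cell `0` -/
def stt (q dc tab a2 b M X B l y t : ℕ) : ℕ :=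
  dg q ((prm q dc tab a2 b M X B l y 0 (t / B)).evo (win q dc tab a2 b M X B l y (t / B))
    (t % B)) B

theorem LS.win (q dc tab a2 b M : ℕ) {X B l y H : (ℕ → ℕ) → ℕ} (hX : LS X) (hB : LS B)
    (hl : LS l) (hy : LS y) (hH : LS H) :
    LS (fun ρ => win q dc tab a2 b M (X ρ) (B ρ) (l ρ) (y ρ) (H ρ)) := by
  unfold RM2.win
  exact LS.sum (F := fun c ρ => (RM2.prm q dc tab a2 b M (X ρ) (B ρ) (l ρ) (y ρ) c (H ρ)).sim *
      _root_.Pool.Agent.H539R2.powT (X ρ) q c)
    ((LS.const 3).mul hB)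
    ((LS.sim (LS.prm q dc tab a2 b M hX.wk hB.wk hl.wk hy.wk (LS.var 0) hH.wk)).mul
      (LS.powT hX.wk (LS.const q) (LS.var 0)))

theorem LS.stt (q dc tab a2 b M : ℕ) {X B l y t : (ℕ → ℕ) → ℕ} (hX : LS X) (hB : LS B)
    (hl : LS l) (hy : LS y) (ht : LS t) :
    LS (fun ρ => stt q dc tab a2 b M (X ρ) (B ρ) (l ρ) (y ρ) (t ρ)) := by
  unfold RM2.stt
  exact LS.dg (LS.const q)
    (LS.evo (LS.prm q dc tab a2 b M hX hB hl hy (LS.const 0) (ht.div hB))
    (LS.win q dc tab a2 b M hX hB hl hy (ht.div hB)) (ht.mod hB)) hB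

theorem valid (q dc tab a2 b M X B l y c H : ℕ) (ha2 : a2 < q) (hb : b < q) (hB : 1 ≤ B)
    (hH : H ≤ B) (hX : (48 * B + 24) ^ (8 * q * B) ≤ X) :
    (prm q dc tab a2 b M X B l y c H).Valid := by
  obtain ⟨h1, h2, h3⟩ := ZZ.fnd_spec B hB
  have h4 := (ZZ.bad_iff B (ZZ.fnd B / (6 * B + 3)) (ZZ.fnd B % (6 * B + 3)) h1).1 h2
  have hq : 1 ≤ q := by omega
  refine ⟨hq, ha2, hb, hB, h1, h4.1, h4.2, ?_, ?_, ?_⟩
  · show q ^ (3 * B) ≤ X
    refine le_trans ?_ hX
    have e1 : q ≤ (48 * B + 24) ^ q := (Nat.lt_pow_self (by omega : 1 < 48 * B + 24)).le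
    calc q ^ (3 * B) ≤ ((48 * B + 24) ^ q) ^ (3 * B) := Nat.pow_le_pow_left e1 _
      _ = (48 * B + 24) ^ (q * (3 * B)) := by rw [← pow_mul]
      _ ≤ _ := Nat.pow_le_pow_right (by omega) (by nlinarith)
  · show (ZZ.fnd B / (6 * B + 3)) ^ (4 * B * q) ≤ X
    refine le_trans ?_ hX
    calc (ZZ.fnd B / (6 * B + 3)) ^ (4 * B * q) ≤ (48 * B + 24) ^ (4 * B * q) :=
          Nat.pow_le_pow_left (by omega) _
      _ ≤ _ := Nat.pow_le_pow_right (by omega) (by nlinarith)
  · show (8 * (ZZ.fnd B / (6 * B + 3) - 1)) ^ H ≤ X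
    refine le_trans ?_ hX
    calc (8 * (ZZ.fnd B / (6 * B + 3) - 1)) ^ H ≤ (48 * B + 24) ^ H :=
          Nat.pow_le_pow_left (by omega) _
      _ ≤ _ := Nat.pow_le_pow_right (by omega) (by nlinarith)

/-- SIMB -/
theorem sim_b : Pool.Agent.TH381.RM2.SSimB := by
  intro q M f tab a2 b ha2 hb hf
  have hq1 : 0 < q := by omega
  set dc := digs q (q ^ 3) (fun i => f (i / q / q) (i / q % q) (i % q)) with hdc
  have hlt3 : ∀ i < q ^ 3, f (i / q / q) (i / q % q) (i % q) < q := by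
    intro i hi
    refine hf _ _ _ ?_ (Nat.mod_lt _ hq1) (Nat.mod_lt _ hq1)
    rw [Nat.div_div_eq_div_mul, Nat.div_lt_iff_lt_mul (by positivity)]
    calc i < q ^ 3 := hi
      _ = q * (q * q) := by ring
  have hdg : ∀ l c r, l < q → c < q → r < q → dg q dc ((l * q + c) * q + r) = f l c r := by
    intro l c r hl hc hr
    have hlt : (l * q + c) * q + r < q ^ 3 := by
      have h1 : l * q + c + 1 ≤ q * q := by nlinarith
      have h2 : (l * q + c + 1) * q ≤ q * q * q := Nat.mul_le_mul_right _ h1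
      have h3 : q ^ 3 = q * q * q := by ring
      rw [h3]
      nlinarith
    rw [hdc, dg_digs q (q ^ 3) hq1 _ hlt3 _ hlt]
    have e1 : ((l * q + c) * q + r) / q = l * q + c := by
      rw [mul_comm, Nat.mul_add_div hq1, Nat.div_eq_of_lt hr, add_zero]
    have e2 : (l * q + c) / q = l := by
      rw [mul_comm, Nat.mul_add_div hq1, Nat.div_eq_of_lt hc, add_zero]
    have e3 : (l * q + c) % q = c := by
      rw [mul_comm, Nat.mul_add_mod, Nat.mod_eq_of_lt hc]
    have e4 : ((l * q + c) * q + r) % q = r := by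
      rw [mul_comm, Nat.mul_add_mod, Nat.mod_eq_of_lt hr]
    rw [e1, e2, e3, e4]
  refine ⟨fun X B l y t => stt q dc tab a2 b M X B l y t,
    LS.stt q dc tab a2 b M (LS.var 0) (LS.var 1) (LS.var 2) (LS.var 3) (LS.var 4), ?_⟩
  intro X B l y t hB ht hX
  have hHB : t / B ≤ B := by
    have : t / B < B := by
      rw [Nat.div_lt_iff_lt_mul (by omega)]
      exact ht
    omega
  set H := t / B with hH
  have hV : ∀ c, (prm q dc tab a2 b M X B l y c H).Valid := fun c =>
    valid q dc tab a2 b M X B l y c H ha2 hb hB hHB hX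
  have hcz : ∀ c t (i : ℤ), (prm q dc tab a2 b M X B l y c H).cz t i =
      TH381.RM2.cy f q tab a2 b M y l t (i + c - B) := by
    intro c t
    induction t with
    | zero =>
      intro i
      unfold Prm.cz TH381.RM2.cy
      show (if i + (c : ℤ) = (B : ℤ) + 1 then a2
        else if i + (c : ℤ) + (l : ℤ) ≤ (B : ℤ) then
          dg q tab (dg M y ((B : ℤ) - (i + (c : ℤ) + (l : ℤ))).toNat) else b) = _
      by_cases h1 : i + (c : ℤ) = (B : ℤ) + 1
      · rw [if_pos h1, if_pos (by omega)]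
      · rw [if_neg h1, if_neg (by omega : ¬ (i + (c : ℤ) - (B : ℤ) = 1))]
        by_cases h2 : i + (c : ℤ) + (l : ℤ) ≤ (B : ℤ)
        · have h3 : -(i + (c : ℤ) - (B : ℤ) + (l : ℤ)) = (B : ℤ) - (i + (c : ℤ) + (l : ℤ)) := by
            ring
          rw [if_pos h2, if_pos (by omega), h3]
        · rw [if_neg h2, if_neg (by omega)]
    | succ t ih =>
      intro i
      have e1 := (hV c)
      show dg q dc (((prm q dc tab a2 b M X B l y c H).cz t (i - 1) * q +
        (prm q dc tab a2 b M X B l y c H).cz t i) * q + (prm q dc tab a2 b M X B l y c H).cz t (i + 1)) = _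
      rw [hdg _ _ _ (Prm.cz_lt (hV c) t _) (Prm.cz_lt (hV c) t _) (Prm.cz_lt (hV c) t _),
        ih, ih, ih]
      show _ = f (TH381.RM2.cy f q tab a2 b M y l t (i + c - B - 1)) (TH381.RM2.cy f q tab a2 b M y l t (i + c - B))
        (TH381.RM2.cy f q tab a2 b M y l t (i + c - B + 1))
      congr 2 <;> ring
  have hsim : ∀ c, (prm q dc tab a2 b M X B l y c H).sim = TH381.RM2.cy f q tab a2 b M y l (H * B) ((c : ℤ) - B) := by
    intro c
    rw [Prm.sim_eq (hV c)]
    show (prm q dc tab a2 b M X B l y c H).cz (H * B) 0 = _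
    rw [hcz, zero_add]
  have hcnlt : ∀ t i, TH381.RM2.cy f q tab a2 b M y l t i < q := by
    intro t i
    have h := hcz 0 t (i + B)
    have h2 := Prm.cz_lt (hV 0) t (i + B)
    rw [h] at h2
    have e : i + (B : ℤ) + ((0 : ℕ) : ℤ) - (B : ℤ) = i := by push_cast; ring
    rw [e] at h2
    exact h2
  have hW : win q dc tab a2 b M X B l y H =
      digs q (3 * B) (fun c => TH381.RM2.cy f q tab a2 b M y l (H * B) ((c : ℤ) - B)) := by
    unfold win digs
    apply Finset.sum_congr rfl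
    intro c hc
    have := Prm.powq (hV 0) c (Finset.mem_range.1 hc).le
    rw [hsim]
    congr 1
  have hWd : ∀ z < 3 * B, dg q (win q dc tab a2 b M X B l y H) z =
      (prm q dc tab a2 b M X B l y 0 H).cz (H * B) ((prm q dc tab a2 b M X B l y 0 H).zidx (H + 1) z) := by
    intro z hz
    rw [hW, dg_digs _ _ hq1 _ (fun i _ => hcnlt _ _) z hz, hcz]
    congr 1
    unfold Prm.zidx Prm.cidx Prm.off
    show (z : ℤ) - (B : ℤ) = (((H + 1) * B + z : ℕ) : ℤ) - (((H + 1) * B : ℕ) : ℤ) +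
      ((0 : ℕ) : ℤ) - (B : ℤ)
    push_cast
    ring
  have hmod : t % B < B := Nat.mod_lt _ (by omega)
  have hfin := Prm.evo_dg (hV 0) (H * B) (H + 1) (win q dc tab a2 b M X B l y H) hWd (t % B)
    (show t % B ≤ B by omega) B (by omega) (show B + t % B < 3 * B by omega)
  show dg q ((prm q dc tab a2 b M X B l y 0 H).evo (win q dc tab a2 b M X B l y H) (t % B)) B = _
  refine Eq.trans hfin ?_
  rw [hcz]
  have e1 : H * B + t % B = t := by rw [hH]; exact Nat.div_add_mod' t B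
  rw [e1]
  congr 1
  unfold Prm.zidx Prm.cidx Prm.off
  show (((H + 1) * B + B : ℕ) : ℤ) - (((H + 1) * B : ℕ) : ℤ) + ((0 : ℕ) : ℤ) - (B : ℤ) = 0
  push_cast
  ring

end Pool.Agent.TH969.RM2
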