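import Pool.Agent.TH381.RM2.Defs
import Pool.Agent.H539R2.SearchZ

/-!
The number-coded simulation (an edit of `TH381.RM.SimR`, after `H539R2.SimZ`) of a one-dimensional
cellular automaton with a belt carrying the digits of a number, shifted, as an `LS` function.
-/

set_option autoImplicit false
set_option linter.unusedSimpArgs false
set_option linter.unusedVariables false

namespace Pool.Agent.TH969.RM2

open Pool.Agent.H539R2

/-- parameters of a simulation -/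
structure Prm where
  X : ℕ
  q : ℕ
  dc : ℕ
  tab : ℕ
  a2 : ℕ
  b : ℕ
  M : ℕ
  y : ℕ
  B : ℕ
  H : ℕ
  p : ℕ
  g : ℕ
  c : ℕ
  l : ℕ

/-- all parameters are given by `LS` functions -/
structure LSPrm (P : (ℕ → ℕ) → Prm) : Prop where
  X : LS (fun ρ => (P ρ).X)
  q : LS (fun ρ => (P ρ).q)
  dc : LS (fun ρ => (P ρ).dc)
  tab : LS (fun ρ => (P ρ).tab)
  a2 : LS (fun ρ => (P ρ).a2)
  b : LS (fun ρ => (P ρ).b)
  M : LS (fun ρ => (P ρ).M)
  y : LS (fun ρ => (P ρ).y)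
  B : LS (fun ρ => (P ρ).B)
  H : LS (fun ρ => (P ρ).H)
  p : LS (fun ρ => (P ρ).p)
  g : LS (fun ρ => (P ρ).g)
  c : LS (fun ρ => (P ρ).c)
  l : LS (fun ρ => (P ρ).l)

theorem LSPrm.wk {P : (ℕ → ℕ) → Prm} (h : LSPrm P) : LSPrm (fun ρ => P (tl ρ)) :=
  ⟨h.X.wk, h.q.wk, h.dc.wk, h.tab.wk, h.a2.wk, h.b.wk, h.M.wk, h.y.wk, h.B.wk, h.H.wk, h.p.wk,
    h.g.wk, h.c.wk, h.l.wk⟩

namespace Prm

/-- shifted cell index; the cell is `cidx v z - off` -/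
def cidx (P : Prm) (v z : ℕ) : ℕ := v * P.B + z

/-- shift of the cell indices -/
def off (P : Prm) : ℕ := (P.H + 1) * P.B

/-- new cell content in a window -/
def cellN (P : Prm) (w z : ℕ) : ℕ :=
  dg P.q P.dc ((dg P.q w (z - 1) * P.q + dg P.q w z) * P.q + dg P.q w (z + 1))

/-- initial cell content -/
def cell0 (P : Prm) (v z : ℕ) : ℕ :=
  if P.cidx v z + P.c = P.off + P.B + 1 then P.a2
  else if P.cidx v z + P.c + P.l ≤ P.off + P.B then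
    dg P.q P.tab (dg P.M P.y (P.off + P.B - (P.cidx v z + P.c + P.l)))
  else P.b

/-- one step of a window -/
def estep (P : Prm) (w : ℕ) : ℕ :=
  ∑ z ∈ Finset.range (3 * P.B), P.cellN w z * powT P.X P.q z

/-- several steps of a window -/
def evo (P : Prm) (w r : ℕ) : ℕ := nrec w (fun _ acc => P.estep acc) r

/-- initial window -/
def w0 (P : Prm) (v : ℕ) : ℕ :=
  ∑ z ∈ Finset.range (3 * P.B), P.cell0 v z * powT P.X P.q z

/-- next block -/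
def F (P : Prm) (u s y : ℕ) : ℕ := P.evo y P.B / P.q ^ P.B

/-- leaf block -/
def Z0 (P : Prm) (u : ℕ) : ℕ := P.w0 u / P.q ^ P.B

/-- base of the operation index -/
def K (P : Prm) : ℕ := 8 * (P.p - 1)

/-- digit of the operation index -/
def D (P : Prm) (τ i : ℕ) : ℕ := dg P.K τ i

/-- level of the operation -/
def lev (P : Prm) (τ s : ℕ) : ℕ := nrec 0 (fun i acc => if P.D τ i % 4 = 0 then i + 1 else acc) s

/-- horizontal position of the operation -/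
def uu (P : Prm) (τ s : ℕ) : ℕ :=
  ∑ i ∈ Finset.range s, if P.lev τ s ≤ i then P.D τ i % 4 - 1 else 0

/-- sign of the operation as a residue -/
def sgn (P : Prm) (τ s : ℕ) : ℕ :=
  if P.lev τ s < s then (if P.D τ (P.lev τ s) / 4 % 2 = 0 then 1 else P.p - 1) else 1

/-- index of a register digit -/
def rix (P : Prm) (o x σ : ℕ) : ℕ := (o * P.B + x) * P.q + σ

/-- the polynomial, numerically -/
def Pn (P : Prm) (u s R x σ : ℕ) : ℕ :=
  ∑ y ∈ Finset.range (powT P.X P.q (3 * P.B)),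
    (if dg P.q (P.F u s y) x = σ then 1 else 0) *
      pmod P.p (fun z => dg P.p R (P.rix (blk (u + z / P.B) s) (z % P.B) (dg P.q y z))) (3 * P.B)

/-- the new register digit for block `o`, position `x`, symbol `σ`, with old digit `cur` -/
def nd (P : Prm) (τ R o x σ cur : ℕ) : ℕ :=
  if P.lev τ P.H = 0 then
    (if o = blk (P.uu τ P.H) 0 then
      (cur + P.sgn τ P.H * (if dg P.q (P.Z0 (P.uu τ P.H)) x = σ then 1 else 0)) % P.p else cur)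
  else if τ % (powT P.X P.K (P.lev τ P.H - 1)) = 0 then
    (if P.D τ (P.lev τ P.H - 1) % 8 = 0 then
      (if o = blk (P.uu τ P.H) (P.lev τ P.H) then cur else (P.g * cur) % P.p)
    else
      (if o = blk (P.uu τ P.H) (P.lev τ P.H) then
        (cur + (P.p - 1) * P.sgn τ P.H * P.Pn (P.uu τ P.H) (P.lev τ P.H - 1) R x σ) % P.p
      else cur))
  else cur

/-- one operation on the register number -/
def ostep (P : Prm) (τ R : ℕ) : ℕ :=
  ∑ i ∈ Finset.range (4 * P.B * P.q),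
    min (P.nd τ R (i / (P.B * P.q)) (i / P.q % P.B) (i % P.q) (dg P.p R i)) P.p * powT P.X P.p i

/-- the whole computation -/
def regs (P : Prm) : ℕ := nrec 0 (fun τ R => P.ostep τ R) (powT P.X P.K P.H)

/-- the computed state of the cell zero -/
def sim (P : Prm) : ℕ :=
  ∑ σ ∈ Finset.range P.q, σ * dg P.p P.regs (P.rix (blk 0 P.H) 0 σ)

end Prm

theorem LS.blk {u s : (ℕ → ℕ) → ℕ} (hu : LS u) (hs : LS s) : LS (fun ρ => blk (u ρ) (s ρ)) :=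
  (hu.add ((LS.const 3).mul hs)).mod (LS.const 4)

section

variable {P : (ℕ → ℕ) → Prm} (hP : LSPrm P)
include hP

theorem LS.cidx {v z : (ℕ → ℕ) → ℕ} (hv : LS v) (hz : LS z) :
    LS (fun ρ => (P ρ).cidx (v ρ) (z ρ)) :=
  (hv.mul hP.B).add hz

theorem LS.off : LS (fun ρ => (P ρ).off) := (hP.H.succ).mul hP.B

theorem LS.cellN {w z : (ℕ → ℕ) → ℕ} (hw : LS w) (hz : LS z) :
    LS (fun ρ => (P ρ).cellN (w ρ) (z ρ)) := by
  unfold Prm.cellN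
  exact (_root_.Pool.Agent.H539R2.LS.dg hP.q hP.dc
    (((((_root_.Pool.Agent.H539R2.LS.dg hP.q hw (hz.sub (LS.const 1))).mul hP.q).add
      (_root_.Pool.Agent.H539R2.LS.dg hP.q hw hz)).mul hP.q).add
      (_root_.Pool.Agent.H539R2.LS.dg hP.q hw hz.succ)))

theorem LS.cell0 {v z : (ℕ → ℕ) → ℕ} (hv : LS v) (hz : LS z) :
    LS (fun ρ => (P ρ).cell0 (v ρ) (z ρ)) := by
  unfold Prm.cell0
  have hc := LS.cidx hP hv hz
  have ho := LS.off hP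
  exact LS.ite (LSP.eq (hc.add hP.c) ((ho.add hP.B).add (LS.const 1))) hP.a2
    (LS.ite (LSP.le ((hc.add hP.c).add hP.l) (ho.add hP.B))
      (_root_.Pool.Agent.H539R2.LS.dg hP.q hP.tab (_root_.Pool.Agent.H539R2.LS.dg hP.M hP.y
        ((ho.add hP.B).sub ((hc.add hP.c).add hP.l)))) hP.b)

theorem LS.estep {w : (ℕ → ℕ) → ℕ} (hw : LS w) :
    LS (fun ρ => (P ρ).estep (w ρ)) := by
  unfold Prm.estep
  exact LS.sum (F := fun z ρ => (P ρ).cellN (w ρ) z *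
      _root_.Pool.Agent.H539R2.powT (P ρ).X (P ρ).q z)
    ((LS.const 3).mul hP.B)
    ((LS.cellN hP.wk hw.wk (LS.var 0)).mul (LS.powT hP.wk.X hP.wk.q (LS.var 0)))

omit hP in
theorem estep_le (P : Prm) (w : ℕ) : P.estep w ≤ (3 * P.B) * (P.dc * (P.X + 1)) := by
  unfold Prm.estep
  calc ∑ z ∈ Finset.range (3 * P.B), P.cellN w z * powT P.X P.q z
      ≤ ∑ z ∈ Finset.range (3 * P.B), P.dc * (P.X + 1) := by
        apply Finset.sum_le_sum
        intro z _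
        apply Nat.mul_le_mul _ (powT_le _ _ _)
        unfold Prm.cellN
        exact dg_le _ _ _
    _ = _ := by simp

theorem LS.evo {w r : (ℕ → ℕ) → ℕ} (hw : LS w) (hr : LS r) :
    LS (fun ρ => (P ρ).evo (w ρ) (r ρ)) := by
  unfold Prm.evo
  refine LS.nrecB (c := r) (a := w) (b := fun _ acc ρ => (P ρ).estep acc)
    (g := fun ρ => w ρ + (3 * (P ρ).B) * ((P ρ).dc * ((P ρ).X + 1)))
    hr hw (LS.estep hP.wk.wk (LS.var 0))
    (hw.add (((LS.const 3).mul hP.B).mul (hP.dc.mul hP.X.succ))) ?_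
  intro ρ m _
  cases m with
  | zero => simp
  | succ m =>
    rw [nrec_succ]
    exact (estep_le _ _).trans (Nat.le_add_left _ _)

theorem LS.w0 {v : (ℕ → ℕ) → ℕ} (hv : LS v) : LS (fun ρ => (P ρ).w0 (v ρ)) := by
  unfold Prm.w0
  exact LS.sum (F := fun z ρ => (P ρ).cell0 (v ρ) z *
      _root_.Pool.Agent.H539R2.powT (P ρ).X (P ρ).q z)
    ((LS.const 3).mul hP.B)
    ((LS.cell0 hP.wk hv.wk (LS.var 0)).mul (LS.powT hP.wk.X hP.wk.q (LS.var 0)))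

theorem LS.Fb {u s y : (ℕ → ℕ) → ℕ} (hu : LS u) (hs : LS s) (hy : LS y) :
    LS (fun ρ => (P ρ).F (u ρ) (s ρ) (y ρ)) := by
  unfold Prm.F
  exact LS.shift hP.q (LS.evo hP hy hP.B) hP.B

theorem LS.Z0 {u : (ℕ → ℕ) → ℕ} (hu : LS u) : LS (fun ρ => (P ρ).Z0 (u ρ)) := by
  unfold Prm.Z0
  exact LS.shift hP.q (LS.w0 hP hu) hP.B

theorem LS.Kb : LS (fun ρ => (P ρ).K) := (LS.const 8).mul (hP.p.sub (LS.const 1))

theorem LS.Db {τ i : (ℕ → ℕ) → ℕ} (hτ : LS τ) (hi : LS i) : LS (fun ρ => (P ρ).D (τ ρ) (i ρ)) :=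
  LS.dg (LS.Kb hP) hτ hi

omit hP in
theorem lev_le (P : Prm) (τ s : ℕ) : P.lev τ s ≤ s := by
  unfold Prm.lev
  induction s with
  | zero => simp
  | succ s ih =>
    rw [nrec_succ]
    split_ifs <;> omega

theorem LS.lev {τ s : (ℕ → ℕ) → ℕ} (hτ : LS τ) (hs : LS s) :
    LS (fun ρ => (P ρ).lev (τ ρ) (s ρ)) := by
  refine LS.nrecB (c := s) (a := fun _ => 0)
    (b := fun i acc ρ => if (P ρ).D (τ ρ) i % 4 = 0 then i + 1 else acc)
    (g := s) hs LS.zero ?_ hs ?_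
  · exact LS.ite (LSP.eq ((LS.Db hP.wk.wk hτ.wk.wk (LS.var 1)).mod (LS.const 4)) LS.zero)
      (LS.var 1).succ (LS.var 0)
  · intro ρ m hm
    exact (lev_le (P ρ) (τ ρ) m).trans hm

theorem LS.uu {τ s : (ℕ → ℕ) → ℕ} (hτ : LS τ) (hs : LS s) :
    LS (fun ρ => (P ρ).uu (τ ρ) (s ρ)) := by
  unfold Prm.uu
  exact LS.sum (F := fun i ρ => if (P ρ).lev (τ ρ) (s ρ) ≤ i then (P ρ).D (τ ρ) i % 4 - 1 else 0)
    hs (LS.ite (LSP.le (LS.lev hP.wk hτ.wk hs.wk) (LS.var 0))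
      (((LS.Db hP.wk hτ.wk (LS.var 0)).mod (LS.const 4)).sub (LS.const 1)) LS.zero)

theorem LS.sgn {τ s : (ℕ → ℕ) → ℕ} (hτ : LS τ) (hs : LS s) :
    LS (fun ρ => (P ρ).sgn (τ ρ) (s ρ)) := by
  unfold Prm.sgn
  have hl := LS.lev hP hτ hs
  exact LS.ite (LSP.lt hl hs) (LS.ite (LSP.eq (((LS.Db hP hτ hl).div (LS.const 4)).mod
    (LS.const 2)) LS.zero) (LS.const 1) (hP.p.sub (LS.const 1))) (LS.const 1)

theorem LS.rix {o x σ : (ℕ → ℕ) → ℕ} (ho : LS o) (hx : LS x) (hσ : LS σ) :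
    LS (fun ρ => (P ρ).rix (o ρ) (x ρ) (σ ρ)) := (((ho.mul hP.B).add hx).mul hP.q).add hσ

theorem LS.Pn {u s R x σ : (ℕ → ℕ) → ℕ} (hu : LS u) (hs : LS s) (hR : LS R) (hx : LS x)
    (hσ : LS σ) : LS (fun ρ => (P ρ).Pn (u ρ) (s ρ) (R ρ) (x ρ) (σ ρ)) := by
  unfold Prm.Pn
  refine LS.sum (F := fun y ρ => (if _root_.Pool.Agent.H539R2.dg (P ρ).q ((P ρ).F (u ρ) (s ρ) y) (x ρ) = (σ ρ) then 1 else 0) *
      _root_.Pool.Agent.H539R2.pmod (P ρ).p (fun z => _root_.Pool.Agent.H539R2.dg (P ρ).p (R ρ) ((P ρ).rix (_root_.Pool.Agent.H539R2.blk (u ρ + z / (P ρ).B) (s ρ)) (z % (P ρ).B)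
        (_root_.Pool.Agent.H539R2.dg (P ρ).q y z))) (3 * (P ρ).B))
    (LS.powT hP.X hP.q ((LS.const 3).mul hP.B)) ?_
  refine LS.mul (LS.ite (LSP.eq (LS.dg hP.wk.q (LS.Fb hP.wk hu.wk hs.wk (LS.var 0)) hx.wk) hσ.wk)
    (LS.const 1) LS.zero) ?_
  exact LS.pmod (F := fun z ρ => _root_.Pool.Agent.H539R2.dg (P (tl ρ)).p (R (tl ρ)) ((P (tl ρ)).rix
      (_root_.Pool.Agent.H539R2.blk (u (tl ρ) + z / (P (tl ρ)).B) (s (tl ρ))) (z % (P (tl ρ)).B) (_root_.Pool.Agent.H539R2.dg (P (tl ρ)).q (ρ 0) z)))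
    hP.wk.p ((LS.const 3).mul hP.wk.B)
    (LS.dg hP.wk.wk.p hR.wk.wk (LS.rix hP.wk.wk
      (LS.blk (hu.wk.wk.add ((LS.var 0).div hP.wk.wk.B)) hs.wk.wk) ((LS.var 0).mod hP.wk.wk.B)
      (LS.dg hP.wk.wk.q (LS.var 1) (LS.var 0))))

theorem LS.nd {τ R o x σ cur : (ℕ → ℕ) → ℕ} (hτ : LS τ) (hR : LS R) (ho : LS o) (hx : LS x)
    (hσ : LS σ) (hcur : LS cur) :
    LS (fun ρ => (P ρ).nd (τ ρ) (R ρ) (o ρ) (x ρ) (σ ρ) (cur ρ)) := by
  unfold Prm.nd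
  have hl := LS.lev hP hτ hP.H
  have hu := LS.uu hP hτ hP.H
  have hsg := LS.sgn hP hτ hP.H
  have hl1 := hl.sub (LS.const 1)
  refine LS.ite (LSP.eq hl LS.zero) (LS.ite (LSP.eq ho (LS.blk hu LS.zero))
    ((hcur.add (hsg.mul (LS.ite (LSP.eq (LS.dg hP.q (LS.Z0 hP hu) hx) hσ) (LS.const 1)
      LS.zero))).mod hP.p) hcur) ?_
  refine LS.ite (LSP.eq (hτ.mod (LS.powT hP.X (LS.Kb hP) hl1)) LS.zero) ?_ hcur
  refine LS.ite (LSP.eq ((LS.Db hP hτ hl1).mod (LS.const 8)) LS.zero)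
    (LS.ite (LSP.eq ho (LS.blk hu hl)) hcur ((hP.g.mul hcur).mod hP.p)) ?_
  exact LS.ite (LSP.eq ho (LS.blk hu hl)) ((hcur.add (((hP.p.sub (LS.const 1)).mul hsg).mul
    (LS.Pn hP hu hl1 hR hx hσ))).mod hP.p) hcur

theorem LS.ostep {τ R : (ℕ → ℕ) → ℕ} (hτ : LS τ) (hR : LS R) :
    LS (fun ρ => (P ρ).ostep (τ ρ) (R ρ)) := by
  unfold Prm.ostep
  exact LS.sum (F := fun i ρ => Nat.min ((P ρ).nd (τ ρ) (R ρ) (i / ((P ρ).B * (P ρ).q))
      (i / (P ρ).q % (P ρ).B) (i % (P ρ).q) (_root_.Pool.Agent.H539R2.dg (P ρ).p (R ρ) i)) (P ρ).p * _root_.Pool.Agent.H539R2.powT (P ρ).X (P ρ).p i)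
    (((LS.const 4).mul hP.B).mul hP.q)
    ((LS.min (LS.nd hP.wk hτ.wk hR.wk ((LS.var 0).div (hP.wk.B.mul hP.wk.q))
      (((LS.var 0).div hP.wk.q).mod hP.wk.B) ((LS.var 0).mod hP.wk.q)
      (LS.dg hP.wk.p hR.wk (LS.var 0))) hP.wk.p).mul (LS.powT hP.wk.X hP.wk.p (LS.var 0)))

omit hP in
theorem ostep_le (P : Prm) (τ R : ℕ) : P.ostep τ R ≤ (4 * P.B * P.q) * (P.p * (P.X + 1)) := by
  unfold Prm.ostep
  calc _ ≤ ∑ i ∈ Finset.range (4 * P.B * P.q), P.p * (P.X + 1) := by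
        apply Finset.sum_le_sum
        intro i _
        exact Nat.mul_le_mul (min_le_right _ _) (powT_le _ _ _)
    _ = _ := by simp

theorem LS.regs : LS (fun ρ => (P ρ).regs) := by
  unfold Prm.regs
  refine LS.nrecB (a := fun _ => 0) (b := fun τ R ρ => (P ρ).ostep τ R)
    (g := fun ρ => (4 * (P ρ).B * (P ρ).q) * ((P ρ).p * ((P ρ).X + 1)))
    (LS.powT hP.X (LS.Kb hP) hP.H) LS.zero (LS.ostep hP.wk.wk (LS.var 1) (LS.var 0))
    ((((LS.const 4).mul hP.B).mul hP.q).mul (hP.p.mul hP.X.succ)) ?_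
  intro ρ m _
  cases m with
  | zero => simp
  | succ m =>
    rw [nrec_succ]
    exact ostep_le _ _ _

theorem LS.sim : LS (fun ρ => (P ρ).sim) := by
  unfold Prm.sim
  exact LS.sum (F := fun σ ρ => σ * _root_.Pool.Agent.H539R2.dg (P ρ).p (P ρ).regs ((P ρ).rix (_root_.Pool.Agent.H539R2.blk 0 (P ρ).H) 0 σ))
    hP.q ((LS.var 0).mul (LS.dg hP.wk.p (LS.regs hP.wk) (LS.rix hP.wk (LS.blk LS.zero hP.wk.H)
      LS.zero (LS.var 0))))

end

end Pool.Agent.TH969.RM2
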